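import Pool.Agent.H20.Brachy

namespace Pool.Agent.Results.MP_041051_al.NonAdditive

open Pool.Agent.H20.Brachy

theorem result : ∃ (R S : Type) (_ : NonAssocRing R) (_ : NonAssocRing S) (f : R → S),
    (∀ x, f (1 + x) = 1 + f x) ∧ (∀ x y, f (x * y) = f x * f y) ∧
      ∃ x y, f (x + y) ≠ f x + f y :=
  ⟨Unitization (ZMod 2) V, ZMod 2, inferInstance, inferInstance, f, f_succ, f_mul, _, _, f_not⟩

end Pool.Agent.Results.MP_041051_al.NonAdditive
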